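import Pool.Agent.W593.IR.Stm3

/-!
Project IR3 (helper593), part CH0: chord inequalities for `u 0`.
-/

set_option autoImplicit false

namespace Pool.Agent.W10.IR

open Pool.Agent.W593.IR

theorem chv {k : ℕ} {u H : ℕ → ℝ} (S : SQ k u H) (m : ℕ) (hU : 0 < u 0)
    (hm : (m : ℝ) * u 0 ≤ H 0) (h1 : u 0 ≤ H 0) : (m : ℝ) * (1 - u 0 / H 0) ^ m ≤ H 0 := by
  have := S.ch 0 (Nat.zero_le _) m (Nat.zero_le _) (H 0 / u 0) ((le_div_iff₀ hU).2 hm)
    ((one_le_div hU).2 h1) hU (by rw [div_mul_cancel₀ _ hU.ne'])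
  rw [one_div_div, Nat.sub_zero] at this
  exact this

theorem ch0 : S_CH0 := by
  intro k hk u H S
  have hk0 : (0 : ℝ) < k := by rcases hk with rfl | rfl <;> norm_num
  have hk5 : (k : ℝ) ≤ 5 := by rcases hk with rfl | rfl <;> norm_num
  have hu0 : 0 ≤ u 0 := S.u0 0 (Nat.zero_le _)
  have hH1 : H 0 ≤ k * u 0 := S.h1 0 (Nat.zero_le _)
  have hpos : 0 < H 0 → 0 < u 0 := by
    intro h
    rcases hu0.lt_or_eq with h1 | h1
    · exact h1
    · rw [← h1, mul_zero] at hH1; linarith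
  refine ⟨?_, ?_, ?_, ?_⟩
  · intro h
    by_contra hc
    push Not at hc
    have hH : 0 < H 0 := by linarith
    have hU := hpos hH
    have h2 := chv S 2 hU (by push_cast; linarith) (by linarith)
    obtain ⟨v, hv⟩ : ∃ v, v = u 0 / H 0 := ⟨_, rfl⟩
    have hv1 : v < 1 / 2 := by rw [hv, div_lt_iff₀ hH]; exact hc
    rw [← hv] at h2
    push_cast at h2
    nlinarith
  · intro h h'
    have hH : 0 < H 0 := by linarith
    have hU := hpos hH
    obtain ⟨v, hv⟩ : ∃ v, v = u 0 / H 0 := ⟨_, rfl⟩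
    have hUv : u 0 = v * H 0 := by rw [hv, div_mul_cancel₀ _ hH.ne']
    have hv0 : 0 < v := by rw [hv]; positivity
    rcases le_or_gt (1 / 2) v with h1 | h1
    · rw [hUv]; nlinarith
    rcases le_or_gt (1 / 3) v with h2 | h2
    · have h3 := chv S 2 hU (by rw [hUv]; push_cast; nlinarith) (by rw [hUv]; nlinarith)
      rw [← hv] at h3
      push_cast at h3
      have h4 : 0 ≤ 2 * ((1 / 2 - v) * (v - 1 / 3) * (9 / 7 - v)) := by
        have : 0 ≤ (1 / 2 - v) * (v - 1 / 3) := mul_nonneg (by linarith) (by linarith)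
        have := mul_nonneg this (show (0 : ℝ) ≤ 9 / 7 - v by linarith)
        linarith
      have h5 : 2 * (1 - v) ^ 2 * (v - 5 / 42) - 4 / 21 =
          2 * ((1 / 2 - v) * (v - 1 / 3) * (9 / 7 - v)) := by ring
      have h6 : 2 * (1 - v) ^ 2 * (v - 5 / 42) ≤ H 0 * (v - 5 / 42) :=
        mul_le_mul_of_nonneg_right h3 (by linarith)
      rw [hUv]; linarith
    · exfalso
      have h3 := chv S 3 hU (by rw [hUv]; push_cast; nlinarith) (by rw [hUv]; nlinarith)
      rw [← hv] at h3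
      push_cast at h3
      have h4 : (2 / 3 : ℝ) ^ 3 < (1 - v) ^ 3 := pow_lt_pow_left₀ (by linarith) (by norm_num) (by norm_num)
      norm_num at h4
      linarith
  · intro h h'
    have hH : 0 < H 0 := by linarith
    have hU := hpos hH
    obtain ⟨v, hv⟩ : ∃ v, v = u 0 / H 0 := ⟨_, rfl⟩
    have hUv : u 0 = v * H 0 := by rw [hv, div_mul_cancel₀ _ hH.ne']
    have hv0 : 0 < v := by rw [hv]; positivity
    rcases le_or_gt (1 / 3) v with h1 | h1
    · rw [hUv]; nlinarith
    rcases le_or_gt (1 / 4) v with h2 | h2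
    · have h3 := chv S 3 hU (by rw [hUv]; push_cast; nlinarith) (by rw [hUv]; nlinarith)
      rw [← hv] at h3
      push_cast at h3
      have h4 : 0 ≤ 3 * ((v - 1 / 4) * (1 / 3 - v) * (v ^ 2 - 536 / 217 * v + 355 / 217)) := by
        have h7 : 0 ≤ (v - 1 / 4) * (1 / 3 - v) := mul_nonneg (by linarith) (by linarith)
        have h8 : 0 ≤ v ^ 2 - 536 / 217 * v + 355 / 217 := by nlinarith [sq_nonneg v]
        have := mul_nonneg h7 h8
        linarith
      have h5 : 3 * (1 - v) ^ 3 * (v - 139 / 2604) - 54 / 217 =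
          3 * ((v - 1 / 4) * (1 / 3 - v) * (v ^ 2 - 536 / 217 * v + 355 / 217)) := by ring
      have h6 : 3 * (1 - v) ^ 3 * (v - 139 / 2604) ≤ H 0 * (v - 139 / 2604) :=
        mul_le_mul_of_nonneg_right h3 (by linarith)
      rw [hUv]; linarith
    · exfalso
      have h3 := chv S 4 hU (by rw [hUv]; push_cast; nlinarith) (by rw [hUv]; nlinarith)
      rw [← hv] at h3
      push_cast at h3
      have h4 : (3 / 4 : ℝ) ^ 4 < (1 - v) ^ 4 := pow_lt_pow_left₀ (by linarith) (by norm_num) (by norm_num)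
      norm_num at h4
      linarith
  · intro hk' h h'
    have hH : 0 < H 0 := by linarith
    have hU := hpos hH
    obtain ⟨v, hv⟩ : ∃ v, v = u 0 / H 0 := ⟨_, rfl⟩
    have hUv : u 0 = v * H 0 := by rw [hv, div_mul_cancel₀ _ hH.ne']
    have hv0 : 0 < v := by rw [hv]; positivity
    rcases le_or_gt (1 / 4) v with h1 | h1
    · rw [hUv]; nlinarith
    have h2 : 1 / 5 ≤ v := by
      rw [hv, le_div_iff₀ hH]
      have : (k : ℝ) * u 0 ≤ 5 * u 0 := mul_le_mul_of_nonneg_right hk5 hU.le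
      linarith
    have h3 := chv S 4 hU (by rw [hUv]; push_cast; nlinarith) (by rw [hUv]; nlinarith)
    rw [← hv] at h3
    push_cast at h3
    have h4 : 0 ≤ 4 * ((1 / 4 - v) * (v - 1 / 5) *
        (29755 / 14911 - 66501 / 14911 * v + 53385 / 14911 * v ^ 2 - v ^ 3)) := by
      have h7 : 0 ≤ (1 / 4 - v) * (v - 1 / 5) := mul_nonneg (by linarith) (by linarith)
      have h8 : 0 ≤ 29755 / 14911 - 66501 / 14911 * v + 53385 / 14911 * v ^ 2 - v ^ 3 := by
        have h9 : v ^ 3 ≤ v ^ 2 := pow_le_pow_of_le_one hv0.le (by linarith) (by norm_num)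
        nlinarith [sq_nonneg v]
      have := mul_nonneg h7 h8
      linarith
    have h5 : 4 * (1 - v) ^ 4 * (v - 9019 / 298220) - 20736 / 74555 =
        4 * ((1 / 4 - v) * (v - 1 / 5) *
        (29755 / 14911 - 66501 / 14911 * v + 53385 / 14911 * v ^ 2 - v ^ 3)) := by ring
    have h6 : 4 * (1 - v) ^ 4 * (v - 9019 / 298220) ≤ H 0 * (v - 9019 / 298220) :=
      mul_le_mul_of_nonneg_right h3 (by linarith)
    rw [hUv]; linarith

end Pool.Agent.W10.IR
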